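import Mathlib

set_option autoImplicit false

namespace Pool.Agent.Results.MP_01622d_an.SnakeNotExtremal

noncomputable section

open Polynomial

/-- The uniform norm on `[-1,1]`. -/
def supNorm (f : ℝ[X]) : ℝ := sSup ((fun x => |f.eval x|) '' Set.Icc (-1:ℝ) 1)

/-- `ω` is the snake polynomial of degree at most `n` of the majorant `μ`:
`|ω| ≤ μ` on `[-1,1]`, and `ω(τ_i) = (-1)^i μ(τ_i)` at points `1 ≥ τ_0 > τ_1 > ... > τ_n ≥ -1`. -/
def IsSnake (μ : ℝ → ℝ) (n : ℕ) (ω : ℝ[X]) : Prop :=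
  ω.natDegree ≤ n ∧ (∀ x ∈ Set.Icc (-1:ℝ) 1, |ω.eval x| ≤ μ x) ∧
    ∃ τ : Fin (n + 1) → ℝ, StrictAnti τ ∧ (∀ i, τ i ∈ Set.Icc (-1:ℝ) 1) ∧
      ∀ i, ω.eval (τ i) = (-1) ^ (i : ℕ) * μ (τ i)

lemma prod_sign {n : ℕ} {τ : Fin (n + 1) → ℝ} (hτ : StrictAnti τ) (i : Fin (n + 1)) :
    0 < (-1) ^ (i : ℕ) * (∏ j ∈ Finset.univ.erase i, (τ i - τ j))⁻¹ := by
  have h1 : ∏ j ∈ Finset.univ.erase i, (τ i - τ j)
      = (∏ j ∈ Finset.univ.erase i, (if j < i then (-1:ℝ) else 1))
        * ∏ j ∈ Finset.univ.erase i, |τ i - τ j| := by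
    rw [← Finset.prod_mul_distrib]
    apply Finset.prod_congr rfl
    intro j hj
    have hne : j ≠ i := (Finset.mem_erase.1 hj).1
    split_ifs with h
    · have := hτ h
      rw [abs_of_neg (by linarith)]; ring
    · have h2 : i < j := lt_of_le_of_ne (not_lt.1 h) hne.symm
      have := hτ h2
      rw [abs_of_pos (by linarith)]; ring
  have h2 : (∏ j ∈ Finset.univ.erase i, (if j < i then (-1:ℝ) else 1)) = (-1) ^ (i : ℕ) := by
    rw [Finset.prod_ite, Finset.prod_const, Finset.prod_const_one, mul_one]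
    congr 1
    have : (Finset.univ.erase i).filter (fun j => j < i) = Finset.Iio i := by
      ext j
      simp only [Finset.mem_filter, Finset.mem_erase, Finset.mem_univ, and_true, Finset.mem_Iio]
      constructor
      · exact fun h => h.2
      · exact fun h => ⟨h.ne, h⟩
    rw [this, Fin.card_Iio]
  have h3 : 0 < ∏ j ∈ Finset.univ.erase i, |τ i - τ j| := by
    apply Finset.prod_pos
    intro j hj
    have hne : j ≠ i := (Finset.mem_erase.1 hj).1
    exact abs_pos.2 (sub_ne_zero.2 (fun h => hne (hτ.injective h).symm))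
  rw [h1, h2, mul_inv, ← mul_assoc, ← inv_pow, inv_neg_one, ← mul_pow]
  norm_num
  exact h3

/-- The snake polynomial is unique. -/
lemma snake_unique {μ : ℝ → ℝ} {n : ℕ} {ω p : ℝ[X]} (hω : IsSnake μ n ω) (hp : IsSnake μ n p) :
    p = ω := by
  have key : ∀ {ω p : ℝ[X]}, IsSnake μ n ω → p.natDegree ≤ n →
      (∀ x ∈ Set.Icc (-1:ℝ) 1, |p.eval x| ≤ μ x) →
      p.coeff n ≤ ω.coeff n ∧ (p.coeff n = ω.coeff n → p = ω) := by
    intro ω p hω hpd hpb
    obtain ⟨hd, hb, τ, hτ, hm, ha⟩ := hω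
    have hcard : (Finset.univ : Finset (Fin (n + 1))).card = n + 1 := by simp
    have hdeg : ∀ {q : ℝ[X]}, q.natDegree ≤ n →
        q.degree < (Finset.univ : Finset (Fin (n + 1))).card := by
      intro q hq
      rw [hcard]
      refine lt_of_le_of_lt (degree_le_of_natDegree_le hq) ?_
      exact_mod_cast Nat.lt_succ_self n
    have e1 := Lagrange.coeff_eq_sum (s := Finset.univ) (v := τ) hτ.injective.injOn (hdeg hpd)
    have e2 := Lagrange.coeff_eq_sum (s := Finset.univ) (v := τ) hτ.injective.injOn (hdeg hd)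
    rw [hcard, Nat.add_sub_cancel] at e1 e2
    have hterm : ∀ i ∈ (Finset.univ : Finset (Fin (n + 1))),
        p.eval (τ i) / ∏ j ∈ Finset.univ.erase i, (τ i - τ j) ≤
        ω.eval (τ i) / ∏ j ∈ Finset.univ.erase i, (τ i - τ j) := by
      intro i _
      have hs := prod_sign hτ i
      set c := (∏ j ∈ Finset.univ.erase i, (τ i - τ j))⁻¹ with hc
      rw [div_eq_mul_inv, div_eq_mul_inv, ← hc, ha i]
      have h1 : p.eval (τ i) * c = ((-1) ^ (i:ℕ) * p.eval (τ i)) * ((-1) ^ (i:ℕ) * c) := by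
        have : ((-1:ℝ) ^ (i:ℕ)) * ((-1) ^ (i:ℕ)) = 1 := by
          rw [← mul_pow]; norm_num
        linear_combination (-(p.eval (τ i) * c)) * this
      have h2 : (-1) ^ (i:ℕ) * μ (τ i) * c = μ (τ i) * ((-1) ^ (i:ℕ) * c) := by ring
      rw [h1, h2]
      apply mul_le_mul_of_nonneg_right _ hs.le
      calc (-1) ^ (i:ℕ) * p.eval (τ i) ≤ |(-1) ^ (i:ℕ) * p.eval (τ i)| := le_abs_self _
        _ = |p.eval (τ i)| := by rw [abs_mul, abs_pow, abs_neg, abs_one, one_pow, one_mul]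
        _ ≤ μ (τ i) := hpb _ (hm i)
    refine ⟨?_, ?_⟩
    · rw [e1, e2]
      exact Finset.sum_le_sum hterm
    · intro heq
      rw [e1, e2] at heq
      have heach := (Finset.sum_eq_sum_iff_of_le hterm).1 heq
      have hev : ∀ i, p.eval (τ i) = ω.eval (τ i) := by
        intro i
        have h1 := heach i (Finset.mem_univ i)
        have hs := prod_sign hτ i
        have hne : (∏ j ∈ Finset.univ.erase i, (τ i - τ j))⁻¹ ≠ 0 := by
          intro h0
          rw [h0, mul_zero] at hs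
          exact lt_irrefl _ hs
        rw [div_eq_mul_inv, div_eq_mul_inv] at h1
        exact mul_right_cancel₀ hne h1
      rw [Lagrange.eq_interpolate (s := Finset.univ) (v := τ) hτ.injective.injOn (hdeg hpd),
        Lagrange.eq_interpolate (s := Finset.univ) (v := τ) hτ.injective.injOn (hdeg hd)]
      congr 1
      funext i
      exact hev i
  have a1 := key hω hp.1 hp.2.1
  have a2 := key hp hω.1 hω.2.1
  exact a1.2 (le_antisymm a1.1 a2.1)

/-! ### The example -/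

def W : ℝ[X] := C 323 * (C 1661 * X - C 4125 * X ^ 3 + C 2500 * X ^ 5)
def Q : ℝ[X] := C 36 * (C 13123 - C 32800 * X ^ 2 + C 20000 * X ^ 4)

def mu (x : ℝ) : ℝ := max |W.eval x| |Q.eval x|

lemma W_eval (x : ℝ) : W.eval x = 323 * (1661 * x - 4125 * x ^ 3 + 2500 * x ^ 5) := by
  simp [W]

lemma Q_eval (x : ℝ) : Q.eval x = 36 * (13123 - 32800 * x ^ 2 + 20000 * x ^ 4) := by
  simp [Q]

lemma W_deg : W.natDegree ≤ 5 := by
  unfold W
  compute_degree

lemma Q_deg : Q.natDegree ≤ 5 := by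
  unfold Q
  refine le_trans (b := 4) ?_ (by norm_num)
  compute_degree

def tau : Fin 6 → ℝ := ![1, 9/10, 8/10, -8/10, -9/10, -1]

lemma snakeW : IsSnake mu 5 W := by
  refine ⟨W_deg, fun x _ => le_max_left _ _, tau, ?_, ?_, ?_⟩
  · rw [Fin.strictAnti_iff_succ_lt]
    intro i
    fin_cases i
    · change (9/10 : ℝ) < 1; norm_num
    · change (8/10 : ℝ) < 9/10; norm_num
    · change (-8/10 : ℝ) < 8/10; norm_num
    · change (-9/10 : ℝ) < -8/10; norm_num
    · change (-1 : ℝ) < -9/10; norm_num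
  · intro i
    fin_cases i <;> norm_num [tau]
  · intro i
    unfold mu
    rw [W_eval, Q_eval]
    fin_cases i <;> norm_num [tau]

lemma dW_eval (x : ℝ) : (derivative^[1] W).eval x = 323 * (1661 - 12375 * x ^ 2 + 12500 * x ^ 4) := by
  simp [W]
  ring

lemma dQ_eval (x : ℝ) : (derivative^[1] Q).eval x = 36 * (-65600 * x + 80000 * x ^ 3) := by
  simp [Q]
  ring

lemma norm_dW : supNorm (derivative^[1] W) ≤ 323 * 1786 := by
  apply Real.sSup_le _ (by norm_num)
  rintro _ ⟨x, hx, rfl⟩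
  simp only
  rw [dW_eval, abs_le]
  have h1 : x ^ 2 ≤ 1 := by nlinarith [hx.1, hx.2]
  have h0 : 0 ≤ x ^ 2 := sq_nonneg x
  have h4 : x ^ 4 = (x ^ 2) ^ 2 := by ring
  rw [h4]
  constructor
  · nlinarith [sq_nonneg (x ^ 2 - 12375 / 25000)]
  · nlinarith [mul_nonneg h0 (sub_nonneg.2 h1)]

lemma norm_dQ : 820800 ≤ supNorm (derivative^[1] Q) := by
  have hb : BddAbove ((fun x => |(derivative^[1] Q).eval x|) '' Set.Icc (-1:ℝ) 1) := by
    apply IsCompact.bddAbove
    apply isCompact_Icc.image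
    exact (Polynomial.continuous _).abs
  refine le_csSup_of_le hb ⟨1/2, by norm_num, rfl⟩ ?_
  simp only
  rw [dQ_eval]
  norm_num [abs_of_neg]

/-- The snake polynomial need not be extremal in the Markov inequality with a majorant:
for `n = 5`, `k = 1` there are a continuous majorant `μ` and `p` of degree at most `5` with
`|p| ≤ μ` such that the (unique) snake polynomial `ω` of `μ` has `‖ω'‖ < ‖p'‖`. -/
theorem result :
    ∃ (n k : ℕ) (μ : ℝ → ℝ) (p : ℝ[X]),
      1 ≤ k ∧ k ≤ n ∧ ContinuousOn μ (Set.Icc (-1:ℝ) 1) ∧ (∀ x ∈ Set.Icc (-1:ℝ) 1, 0 ≤ μ x) ∧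
      p.natDegree ≤ n ∧ (∀ x ∈ Set.Icc (-1:ℝ) 1, |p.eval x| ≤ μ x) ∧
      (∃ ω : ℝ[X], IsSnake μ n ω) ∧
      ∀ ω : ℝ[X], IsSnake μ n ω → supNorm (derivative^[k] ω) < supNorm (derivative^[k] p) := by
  refine ⟨5, 1, mu, Q, le_rfl, by norm_num, ?_, ?_, Q_deg, fun x _ => le_max_right _ _,
    ⟨W, snakeW⟩, ?_⟩
  · apply Continuous.continuousOn
    unfold mu
    exact (Polynomial.continuous W).abs.max (Polynomial.continuous Q).abs
  · intro x _
    exact (abs_nonneg _).trans (le_max_left _ _)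
  · intro ω hω
    rw [snake_unique snakeW hω]
    calc supNorm (derivative^[1] W) ≤ 323 * 1786 := norm_dW
      _ < 820800 := by norm_num
      _ ≤ _ := norm_dQ

end

end Pool.Agent.Results.MP_01622d_an.SnakeNotExtremal
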